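import Pool.Agent.H97.PR.Targets

/-!
# Board pry_modules (MP_c62aed_lc), row STP: one inference with two premises
-/

set_option autoImplicit false

namespace Pool.Agent.H29.PRY

open Finset Pool.Agent.H97.PR

theorem gv_eq {n N : ℕ} {blk : Fin n → Fin N} (g : Gad blk) {x a : E n} {J : Finset (Fin N)}
    (h : x - a ∈ zr blk J) : ∀ v ∈ J, gv g x v = gv g a v := by
  intro v hv
  unfold gv
  congr 1
  funext i
  have h1 : (x - a) i.1 = 0 := h i.1 (by rw [i.2]; exact hv)
  have h2 : x i.1 - a i.1 = 0 := h1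
  exact sub_eq_zero.1 h2

theorem mem_pc_self {n : ℕ} (a : E n) (V : Submodule (ZMod 2) (E n)) : a ∈ pc a V := by
  show a - a ∈ V
  rw [sub_self]
  exact V.zero_mem

theorem pc_trans {n : ℕ} {a b x : E n} {V : Submodule (ZMod 2) (E n)} (hb : b ∈ pc a V)
    (hx : x ∈ pc b V) : x ∈ pc a V := by
  have h1 : x - b ∈ V := hx
  have h2 : b - a ∈ V := hb
  have h3 : x - a = (x - b) + (b - a) := by abel
  show x - a ∈ V
  rw [h3]
  exact V.add_mem h1 h2

theorem pc_mono {n : ℕ} {a : E n} {V V' : Submodule (ZMod 2) (E n)} (h : V' ≤ V) :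
    pc a V' ⊆ pc a V := fun _ hx => h hx

theorem cnt_zero {n : ℕ} {p : E n → Prop} (h : ∀ x, ¬ p x) : cnt p = 0 := by
  unfold cnt
  simp [h]

theorem pf_STP (_hRKB : T_RKB) (hRKC : T_RKC) (hCLS : T_CLS) (hSPL : T_SPL) (hADS : T_ADS) :
    T_STP := by
  intro n N k m blk γ B D q σ g F G hE a V Cl P Q hP hQ hS hcov hpot
  rcases hSPL n a V P Q hP hQ hcov with h | h | ⟨V', a₁, a₂, hV'V, hdim, ha₁, ha₂, hP', hQ', hdis⟩
  · exact Or.inl h
  · exact Or.inr (Or.inl h)
  · refine Or.inr (Or.inr ?_)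
    -- the closure of `V'`, and one side
    have key : ∃ (V₁ : Submodule (ZMod 2) (E n)) (Cl₁ : Finset (Fin N)), Cl ⊆ Cl₁ ∧
        dm V + γ * Cl.card ≤ dm V₁ + γ * Cl₁.card + 1 ∧
        ∀ b ∈ pc a V, ∃ R : Set (E n), R ⊆ pc b V' ∧ R.Nonempty ∧
          (∀ x ∈ R, Sta blk γ g G x V₁ Cl₁ ∧ pc x V₁ ⊆ R) ∧
          2 ^ dm V ≤ 2 * 4 ^ (Cl₁.card - Cl.card) * cnt (fun x => x ∈ R) := by
      have hgood : ∀ b ∈ pc a V, G Cl (gv g b) := fun b hb =>
        hE.adv.cong Cl (gv g a) (gv g b) (gv_eq g (hS.zr hb)) hS.good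
      have hpow : 2 ^ dm V = 2 * 2 ^ dm V' := by
        rw [← hdim, pow_succ]
        ring
      rcases hCLS n N blk γ V V' Cl hS.zr hS.rk hV'V hdim with hrk |
        ⟨J₁, hne, hdj, hz, hrk, hd, hrk'⟩
      · refine ⟨V', Cl, Finset.Subset.refl _, by omega, fun b hb => ⟨pc b V', Set.Subset.refl _,
          ⟨b, mem_pc_self b V'⟩, fun x hx => ⟨⟨hV'V.trans hS.zr, hrk, ?_⟩,
            fun z hz => pc_trans hx hz⟩, ?_⟩⟩
        · exact hgood x (pc_trans hb (pc_mono hV'V hx))
        · have h1 := (hRKC n N blk V' ∅).2.1 b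
          rw [h1, hpow, Nat.sub_self, pow_zero, mul_one]
      · have hcard : (Cl ∪ J₁).card = Cl.card + J₁.card := card_union_of_disjoint hdj.symm
        have hJ : 1 ≤ J₁.card := hne.card_pos
        refine ⟨V' ⊓ zr blk J₁, Cl ∪ J₁, subset_union_left, ?_, ?_⟩
        · rw [hcard, mul_add]
          omega
        · have hD : (Cl ∪ J₁).card ≤ D := by
            by_contra hcon
            have h1 := (hRKC n N blk (V' ⊓ zr blk J₁) (Cl ∪ J₁)).2.2.2.1 B hE.hi hz
            have h2 := hE.par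
            have hN : (Cl ∪ J₁).card ≤ N := by
              have := Finset.card_le_univ (Cl ∪ J₁)
              rwa [Fintype.card_fin] at this
            set c := (Cl ∪ J₁).card with hc
            have h3 : N ≤ c + q := by
              have : N ≤ D + q := le_trans (Nat.le_add_right _ _) h2
              omega
            have h4 : B * N ≤ B * c + B * q := by
              rw [← mul_add]
              exact Nat.mul_le_mul_left B h3
            have h5 : γ * c ≤ γ * N := Nat.mul_le_mul_left γ hN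
            have h6 : γ * c = γ * Cl.card + γ * J₁.card := by rw [hcard, mul_add]
            omega
          intro b hb
          obtain ⟨y, hy, hGy⟩ := hADS N k m F D G hE.adv Cl J₁ (gv g b) hD (hgood b hb)
          have hgd := hE.gd V' b J₁ y (fun J' hJ' _ => hrk' J' hJ')
          refine ⟨{x | x - b ∈ V' ∧ ∀ v ∈ J₁, gv g x v = y v}, fun x hx => hx.1, ?_, ?_, ?_⟩
          · by_contra hemp
            have h0 : (cnt fun x => x - b ∈ V' ∧ ∀ v ∈ J₁, gv g x v = y v) = 0 :=
              cnt_zero fun x hx => hemp ⟨x, hx⟩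
            rw [h0, mul_zero] at hgd
            have : 0 < 2 ^ dm V' := by positivity
            omega
          · intro x hx
            refine ⟨⟨hz, hrk, ?_⟩, ?_⟩
            · refine hE.adv.cong (Cl ∪ J₁) y (gv g x) (fun u hu => ?_) hGy
              rcases mem_union.1 hu with h | h
              · rw [hy u h]
                exact gv_eq g (hS.zr (hV'V hx.1)) u h
              · exact hx.2 u h
            · intro w hw
              have hw' : w - x ∈ V' ⊓ zr blk J₁ := hw
              refine ⟨pc_trans (a := b) (b := x) hx.1 hw'.1, fun v hv => ?_⟩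
              rw [gv_eq g hw'.2 v hv]
              exact hx.2 v hv
          · rw [hcard, Nat.add_sub_cancel_left, hpow]
            have h7 : 2 ^ (J₁.card + 1) ≤ 4 ^ J₁.card := by
              have : (4 : ℕ) = 2 ^ 2 := by norm_num
              rw [this, ← pow_mul]
              exact Nat.pow_le_pow_right (by norm_num) (by omega)
            calc 2 * 2 ^ dm V' ≤ 2 * (2 ^ (J₁.card + 1) *
                  cnt fun x => x - b ∈ V' ∧ ∀ v ∈ J₁, gv g x v = y v) :=
                  Nat.mul_le_mul_left 2 hgd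
              _ ≤ 2 * (4 ^ J₁.card *
                  cnt fun x => x - b ∈ V' ∧ ∀ v ∈ J₁, gv g x v = y v) :=
                  Nat.mul_le_mul_left 2 (Nat.mul_le_mul_right _ h7)
              _ = 2 * 4 ^ J₁.card *
                  cnt fun x => x - b ∈ V' ∧ ∀ v ∈ J₁, gv g x v = y v := by ring
    obtain ⟨V₁, Cl₁, hCl, hpt, hside⟩ := key
    obtain ⟨R₁, hR₁, hn₁, hs₁, hc₁⟩ := hside a₁ ha₁
    obtain ⟨R₂, hR₂, hn₂, hs₂, hc₂⟩ := hside a₂ ha₂
    refine ⟨V₁, Cl₁, R₁, R₂, hCl, hpt, hR₁.trans hP', ?_, hR₂.trans hQ', ?_,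
      hdis.mono hR₁ hR₂, hn₁, hn₂, hs₁, hs₂, hc₁, hc₂⟩
    · exact fun x hx => pc_trans ha₁ (pc_mono hV'V (hR₁ hx))
    · exact fun x hx => pc_trans ha₂ (pc_mono hV'V (hR₂ hx))

end Pool.Agent.H29.PRY
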